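import Pool.Agent.Helper19.HN.St

/-! # HN, module ENU: a definable enumeration of a set with a definable wellorder -/

namespace Pool.Agent.Helper6.HN.ENU

open Ordinal Cardinal ZFSet Order Pool.Agent.Helper73.HODC Pool.Agent.Helper73.HM
open Pool.Agent.Helper73.HE Pool.Agent.Helper73.HU Pool.Agent.Helper19.HN

/-- `F` is a partial enumeration: its elements are pairs `(y, b)` such that `y` is the element with
the number `b.rank` -/
def Cert (L : ZFSet.{0} → ZFSet.{0} → Prop) (T : ZFSet.{0} → Prop) (F : ZFSet.{0}) : Prop :=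
  ∀ y b : ZFSet.{0}, ZFSet.pair y b ∈ F → T y ∧
    (∀ y', T y' → (L y' y ↔ ∃ b' : ZFSet.{0}, b'.rank < b.rank ∧ ZFSet.pair y' b' ∈ F)) ∧
    ∀ g : Ordinal.{0}, g < b.rank → ∃ y' b' : ZFSet.{0}, b'.rank = g ∧ ZFSet.pair y' b' ∈ F

theorem dp_cert {L : ZFSet.{0} → ZFSet.{0} → Prop} {T : ZFSet.{0} → Prop}
    (hL : DP (fun v => L (v 0) (v 1))) (hT : DP (fun v => T (v 0))) (i : ℕ) :
    DP (fun v => Cert L T (v i)) := by
  have hL' : ∀ j k : ℕ, DP (fun v => L (v j) (v k)) := fun j k =>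
    hL.rename (fun n => if n = 0 then j else k)
  have hT' : ∀ j : ℕ, DP (fun v => T (v j)) := fun j => hT.rename (fun _ => j)
  have hp : ∀ j k l : ℕ, DP (fun v => ZFSet.pair (v j) (v k) ∈ v l) := fun j k l =>
    DP.of (dfn_pair_mem j k l)
  refine DP.all (Q := fun y v => ∀ b : ZFSet.{0}, ZFSet.pair y b ∈ v i → T y ∧
    (∀ y', T y' → (L y' y ↔ ∃ b' : ZFSet.{0}, b'.rank < b.rank ∧ ZFSet.pair y' b' ∈ v i)) ∧
    ∀ g : Ordinal.{0}, g < b.rank → ∃ y' b' : ZFSet.{0}, b'.rank = g ∧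
      ZFSet.pair y' b' ∈ v i) ?_
  refine DP.all (Q := fun b v => ZFSet.pair (v 0) b ∈ v (i + 1) → T (v 0) ∧
    (∀ y', T y' → (L y' (v 0) ↔ ∃ b' : ZFSet.{0}, b'.rank < b.rank ∧
      ZFSet.pair y' b' ∈ v (i + 1))) ∧
    ∀ g : Ordinal.{0}, g < b.rank → ∃ y' b' : ZFSet.{0}, b'.rank = g ∧
      ZFSet.pair y' b' ∈ v (i + 1)) ?_
  refine (hp 1 0 (i + 2)).imp ((hT' 1).and (DP.and ?_ ?_))
  · refine DP.all (Q := fun y' v => T y' → (L y' (v 1) ↔ ∃ b' : ZFSet.{0}, b'.rank < (v 0).rank ∧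
      ZFSet.pair y' b' ∈ v (i + 2))) ?_
    refine (hT' 0).imp ((hL' 0 2).iff ?_)
    refine DP.ex (Q := fun b' v => b'.rank < (v 1).rank ∧ ZFSet.pair (v 0) b' ∈ v (i + 3)) ?_
    exact (DP.rank_lt 0 2).and (hp 1 0 (i + 4))
  · refine DP.allO (Q := fun g v => g < (v 0).rank → ∃ y' b' : ZFSet.{0}, b'.rank = g ∧
      ZFSet.pair y' b' ∈ v (i + 2)) ?_
    refine (DP.rank_lt 0 1).imp ?_
    refine DP.ex (Q := fun y' v => ∃ b' : ZFSet.{0}, b'.rank = (v 0).rank ∧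
      ZFSet.pair y' b' ∈ v (i + 3)) ?_
    refine DP.ex (Q := fun b' v => b'.rank = (v 1).rank ∧ ZFSet.pair (v 0) b' ∈ v (i + 4)) ?_
    exact (DP.rank_eq 0 2).and (hp 1 0 (i + 5))

/-- the enumeration, without definability -/
theorem exists_enum {L : ZFSet.{0} → ZFSet.{0} → Prop} {T : ZFSet.{0} → Prop} {η : Ordinal.{0}}
    (hb : ∀ x, T x → x.rank < η) (htri : ∀ x y, T x → T y → L x y ∨ x = y ∨ L y x)
    (hwf : ∀ P : ZFSet.{0} → Prop, (∃ x, T x ∧ P x) →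
      ∃ x, T x ∧ P x ∧ ∀ y, T y → L y x → ¬ P y) :
    ∃ (α : Ordinal.{0}) (e : Ordinal.{0} → ZFSet.{0}), (∀ a < α, T (e a)) ∧
      (∀ a < α, ∀ b < α, a < b → L (e a) (e b)) ∧ (∀ x, T x → ∃ a < α, e a = x) ∧
      ∀ a, ¬ a < α → e a = ∅ := by
  classical
  let S : ZFSet.{0} := ZFSet.sep T (V_ η)
  have hS : ∀ x, x ∈ S ↔ T x := fun x => by
    show x ∈ ZFSet.sep T (V_ η) ↔ T x
    rw [mem_sep, mem_vonNeumann]
    exact ⟨fun h => h.2, fun h => ⟨hb x h, h⟩⟩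
  let q : Shrink.{0} S ≃ S := (equivShrink S).symm
  let r : Shrink.{0} S → Shrink.{0} S → Prop := fun a b => L (q a).1 (q b).1
  have hq : ∀ a, T (q a).1 := fun a => (hS _).1 (q a).2
  have : IsWellOrder (Shrink.{0} S) r :=
    { wf := by
        refine WellFounded.wellFounded_iff_has_min.2 fun s hs => ?_
        obtain ⟨a, ha⟩ := hs
        obtain ⟨x, hx, ⟨b, hbs, hbx⟩, hmin⟩ := hwf (fun x => ∃ b ∈ s, (q b).1 = x)
          ⟨(q a).1, hq a, a, ha, rfl⟩
        refine ⟨b, hbs, fun c hc hcb => hmin (q c).1 (hq c) ?_ ⟨c, hc, rfl⟩⟩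
        rw [← hbx]
        exact hcb
      trichotomous := fun a b h1 h2 => by
        rcases htri (q a).1 (q b).1 (hq a) (hq b) with h | h | h
        · exact absurd h h1
        · exact q.injective (Subtype.ext h)
        · exact absurd h h2 }
  refine ⟨Ordinal.type r, fun a => if h : a < Ordinal.type r then
    (q (Ordinal.enum r ⟨a, h⟩)).1 else ∅, ?_, ?_, ?_, ?_⟩
  · intro a ha
    simp only [dif_pos ha]
    exact hq _
  · intro a ha b hb hab
    simp only [dif_pos ha, dif_pos hb]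
    exact (Ordinal.enum r).map_rel_iff.2 hab
  · intro x hx
    obtain ⟨⟨a, ha⟩, hax⟩ := (Ordinal.enum r).surjective (q.symm ⟨x, (hS x).2 hx⟩)
    refine ⟨a, ha, ?_⟩
    have ha' : a < Ordinal.type r := ha
    simp only [dif_pos ha']
    rw [hax, Equiv.apply_symm_apply]
  · intro a ha
    simp only [dif_neg ha]

section

variable {L : ZFSet.{0} → ZFSet.{0} → Prop} {T : ZFSet.{0} → Prop}
  {α : Ordinal.{0}} {e : Ordinal.{0} → ZFSet.{0}}

theorem inj_of (hirr : ∀ x, ¬ L x x) (hmono : ∀ a < α, ∀ b < α, a < b → L (e a) (e b))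
    {a b : Ordinal.{0}} (ha : a < α) (hb : b < α) (h : e a = e b) : a = b := by
  rcases lt_trichotomy a b with h' | h' | h'
  · have := hmono a ha b hb h'
    rw [h] at this
    exact absurd this (hirr _)
  · exact h'
  · have := hmono b hb a ha h'
    rw [h] at this
    exact absurd this (hirr _)

/-- certificates are correct -/
theorem Cert.sound (hirr : ∀ x, ¬ L x x) (hT : ∀ a < α, T (e a))
    (hmono : ∀ a < α, ∀ b < α, a < b → L (e a) (e b)) (hsur : ∀ x, T x → ∃ a < α, e a = x)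
    {F : ZFSet.{0}} (hF : Cert L T F) : ∀ (β : Ordinal.{0}) (y b : ZFSet.{0}),
      ZFSet.pair y b ∈ F → b.rank = β → β < α ∧ y = e β := by
  intro β
  induction β using WellFoundedLT.induction with
  | ind β ih =>
    intro y b hyb hb
    obtain ⟨hTy, h1, h2⟩ := hF y b hyb
    rw [hb] at h1 h2
    have hlow : ∀ a < β, a < α ∧ L (e a) y := by
      intro a ha
      obtain ⟨y', b', hb', hyb'⟩ := h2 a ha
      obtain ⟨h3, h4⟩ := ih a ha y' b' hyb' hb'
      refine ⟨h3, ?_⟩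
      rw [← h4]
      refine (h1 y' ?_).2 ⟨b', by rw [hb']; exact ha, hyb'⟩
      rw [h4]
      exact hT a h3
    obtain ⟨a, ha, hay⟩ := hsur y hTy
    have hba : ¬ a < β := fun h => by
      have := (hlow a h).2
      rw [hay] at this
      exact hirr _ this
    have hab : ¬ β < a := fun h => by
      have h3 : β < α := h.trans ha
      have h4 : L (e β) y := by
        rw [← hay]
        exact hmono β h3 a ha h
      obtain ⟨b', hb', hyb'⟩ := (h1 (e β) (hT β h3)).1 h4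
      obtain ⟨h5, h6⟩ := ih b'.rank hb' (e β) b' hyb' rfl
      exact absurd (inj_of hirr hmono h3 h5 h6) (ne_of_gt hb')
    have hE : a = β := le_antisymm (not_lt.1 hab) (not_lt.1 hba)
    subst hE
    exact ⟨ha, hay.symm⟩

/-- there is a certificate -/
theorem exists_cert (hirr : ∀ x, ¬ L x x) (htr : ∀ x y z, T x → T y → T z → L x y → L y z → L x z)
    (hT : ∀ a < α, T (e a)) (hmono : ∀ a < α, ∀ b < α, a < b → L (e a) (e b))
    (hsur : ∀ x, T x → ∃ a < α, e a = x) :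
    ∃ F : ZFSet.{0}, Cert L T F ∧ ∀ a < α, ZFSet.pair (e a) a.toZFSet ∈ F := by
  have hmem : ∀ y b : ZFSet.{0},
      ZFSet.pair y b ∈ ZFSet.range (fun a : Set.Iio α => ZFSet.pair (e a.1) a.1.toZFSet) ↔
      ∃ a < α, e a = y ∧ a.toZFSet = b := by
    intro y b
    rw [ZFSet.mem_range]
    constructor
    · rintro ⟨⟨a, ha⟩, h⟩
      obtain ⟨h1, h2⟩ := ZFSet.pair_injective h
      exact ⟨a, ha, h1, h2⟩
    · rintro ⟨a, ha, rfl, rfl⟩
      exact ⟨⟨a, ha⟩, rfl⟩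
  refine ⟨ZFSet.range (fun a : Set.Iio α => ZFSet.pair (e a.1) a.1.toZFSet), ?_,
    fun a ha => (hmem _ _).2 ⟨a, ha, rfl, rfl⟩⟩
  intro y b hyb
  obtain ⟨a, ha, rfl, rfl⟩ := (hmem _ _).1 hyb
  rw [rank_toZFSet]
  refine ⟨hT a ha, fun y' hy' => ?_, fun g hg => ?_⟩
  · obtain ⟨c, hc, rfl⟩ := hsur y' hy'
    constructor
    · intro hl
      refine ⟨c.toZFSet, ?_, (hmem _ _).2 ⟨c, hc, rfl, rfl⟩⟩
      rw [rank_toZFSet]
      rcases lt_trichotomy c a with h | h | h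
      · exact h
      · rw [h] at hl
        exact absurd hl (hirr _)
      · exact absurd (htr _ _ _ (hT c hc) (hT a ha) (hT c hc) hl (hmono a ha c hc h)) (hirr _)
    · rintro ⟨b', hb', hyb'⟩
      obtain ⟨d, hd, hde, rfl⟩ := (hmem _ _).1 hyb'
      rw [rank_toZFSet] at hb'
      rw [← hde]
      exact hmono d hd a ha hb'
  · exact ⟨e g, g.toZFSet, rank_toZFSet g, (hmem _ _).2 ⟨g, hg.trans ha, rfl, rfl⟩⟩

end

theorem enu : StENU := by
  intro L T η hL hT hb hirr htr htri hwf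
  obtain ⟨α, e, h1, h2, h3, h4⟩ := exists_enum hb htri hwf
  refine ⟨α, e, ?_, h1, h2, h3⟩
  have hD : DP (fun v => ((v 1).rank < α ∧ ∃ F : ZFSet.{0}, Cert L T F ∧
      ∃ b : ZFSet.{0}, b.rank = (v 1).rank ∧ ZFSet.pair (v 0) b ∈ F) ∨
      (¬ (v 1).rank < α ∧ ∀ z : ZFSet.{0}, ¬ z ∈ v 0)) := by
    refine DP.or (DP.and (DP.rank_lt_ord 1 α) ?_) (DP.and (DP.rank_lt_ord 1 α).not ?_)
    · refine DP.ex (Q := fun F v => Cert L T F ∧
        ∃ b : ZFSet.{0}, b.rank = (v 1).rank ∧ ZFSet.pair (v 0) b ∈ F) ?_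
      refine (dp_cert hL hT 0).and ?_
      refine DP.ex (Q := fun b v => b.rank = (v 2).rank ∧ ZFSet.pair (v 1) b ∈ v 0) ?_
      exact (DP.rank_eq 0 3).and (DP.of (dfn_pair_mem 2 0 1))
    · exact DP.all (Q := fun z v => ¬ z ∈ v 0) (DP.mem 0 1).not
  refine hD.congr fun v => ?_
  by_cases hv : (v 1).rank < α
  · constructor
    · intro h
      obtain ⟨F, hF, hF'⟩ := exists_cert hirr htr h1 h2 h3
      refine Or.inl ⟨hv, F, hF, (v 1).rank.toZFSet, rank_toZFSet _, ?_⟩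
      rw [h]
      exact hF' _ hv
    · rintro (⟨-, F, hF, b, hb', hF'⟩ | ⟨h, -⟩)
      · exact (hF.sound hirr h1 h2 h3 _ _ _ hF' hb').2
      · exact absurd hv h
  · rw [h4 _ hv]
    constructor
    · intro h
      exact Or.inr ⟨hv, fun z hz => by
        rw [h] at hz
        exact ZFSet.notMem_empty z hz⟩
    · rintro (⟨h, -⟩ | ⟨-, h⟩)
      · exact absurd h hv
      · exact (ZFSet.eq_empty _).2 h

end Pool.Agent.Helper6.HN.ENU
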